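import Pool.Agent.W560.HP.Stm

set_option autoImplicit false

namespace Pool.Agent.W333.HP

open MvPolynomial

/-- BC0: constants of a purely transcendental extension. -/
theorem bc0 : W560.HP.S_BC0 := by
  intro A Ω ι _ _ _ t ht x hx halg
  by_cases h0 : x = 0
  · exact ⟨0, by rw [map_zero, h0]⟩
  let e := ht.aevalEquivField
  let z : IntermediateField.adjoin A (Set.range t) := ⟨x, hx⟩
  have hz : IsAlgebraic A z := by
    rw [← isAlgebraic_algebraMap_iff (A := Ω) (FaithfulSMul.algebraMap_injective _ _)]
    exact halg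
  obtain ⟨y, hy⟩ : ∃ y, e y = z := ⟨e.symm z, e.apply_symm_apply z⟩
  have hya : IsAlgebraic A y := by
    have h1 : IsAlgebraic A (e.toAlgHom y) := by
      change IsAlgebraic A (e y)
      rw [hy]
      exact hz
    exact (isAlgebraic_algHom_iff e.toAlgHom e.injective).1 h1
  have hy0 : y ≠ 0 := by
    intro h
    apply h0
    have : z = 0 := by rw [← hy, h, map_zero]
    exact congrArg Subtype.val this
  have hint : ∀ w : FractionRing (MvPolynomial ι A), IsAlgebraic A w →
      ∃ p : MvPolynomial ι A, algebraMap (MvPolynomial ι A) (FractionRing (MvPolynomial ι A)) p = w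
      := by
    intro w hw
    have h1 : IsIntegral (MvPolynomial ι A) w := hw.isIntegral.tower_top
    exact IsIntegrallyClosed.algebraMap_eq_of_integral h1
  obtain ⟨p, hp⟩ := hint y hya
  obtain ⟨q, hq⟩ := hint y⁻¹ hya.inv
  have hpq : p * q = 1 := by
    apply IsFractionRing.injective (MvPolynomial ι A) (FractionRing (MvPolynomial ι A))
    rw [map_mul, hp, hq, mul_inv_cancel₀ hy0, map_one]
  obtain ⟨r, _, hr⟩ := MvPolynomial.isUnit_iff_eq_C_of_isReduced.1 (IsUnit.of_mul_eq_one _ hpq)
  refine ⟨r, ?_⟩
  have h2 : y = algebraMap A _ r := by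
    rw [← hp, hr, IsScalarTower.algebraMap_apply A (MvPolynomial ι A)
      (FractionRing (MvPolynomial ι A))]
    rfl
  have h3 : z = algebraMap A _ r := by rw [← hy, h2, AlgEquiv.commutes]
  exact (congrArg Subtype.val h3).symm

end Pool.Agent.W333.HP
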